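import Mathlib
import Pool.Agent.H14.GammaGraph

set_option autoImplicit false

namespace Pool.Agent.Results.MP_b9dfd5_co.TwoCycle

open Pool.Agent.H14.GammaGraph in
theorem result : ∃ G H : SimpleGraph (Fin 12), ¬ Nonempty (G ≃g H) ∧
    Nonempty (gammaGraph G ≃g H) ∧ Nonempty (gammaGraph H ≃g G) :=
  ⟨mk E1, mk E2, not_iso, iso1, iso2⟩

end Pool.Agent.Results.MP_b9dfd5_co.TwoCycle
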